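import Pool.Agent.H37.CNH.Stmts

/-!
# Row `HSD` of the board `cnh`
-/

set_option autoImplicit false

namespace Pool.CND

open Finset

theorem hsd_block (n p : ℕ) (F : ℕ → ℤ) :
    ∑ j ∈ range (n * p), F j = ∑ a ∈ range n, ∑ b ∈ range p, F (a * p + b) := by
  induction n with
  | zero => simp
  | succ n ih => rw [Nat.succ_mul, Finset.sum_range_add, ih, Finset.sum_range_succ]

theorem hsd_thm : S_HSD := by
  intro p r i hp
  have : Fact p.Prime := ⟨hp⟩
  have conv : ∀ (N : ℕ) (i : ℕ → ℤ), 0 < N → ∑ j ∈ Ico 1 N, i (padicValNat p j) =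
      ∑ j ∈ range N, (if j = 0 then 0 else i (padicValNat p j)) := by
    intro N i hN
    rw [Finset.range_eq_Ico, Finset.sum_eq_sum_Ico_succ_bot hN, if_pos rfl, zero_add, zero_add]
    refine Finset.sum_congr rfl fun j hj => ?_
    rw [if_neg]
    have := (Finset.mem_Ico.1 hj).1
    omega
  induction r generalizing i with
  | zero => simp
  | succ r ih =>
    have hpos : 0 < p ^ r := pow_pos hp.pos r
    rw [conv _ i (pow_pos hp.pos _), pow_succ, hsd_block]
    have hb : ∀ a ∈ range (p ^ r), ∑ b ∈ range p,
        (if a * p + b = 0 then 0 else i (padicValNat p (a * p + b))) =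
        (if a = 0 then 0 else i (padicValNat p a + 1)) + ((p : ℤ) - 1) * i 0 := by
      intro a _
      obtain ⟨q, hq⟩ := Nat.exists_eq_succ_of_ne_zero hp.ne_zero
      have e1 : range p = range (q + 1) := by rw [hq]
      rw [e1, Finset.sum_range_succ', add_comm]
      congr 1
      · rw [add_zero]
        by_cases ha : a = 0
        · simp [ha]
        · rw [if_neg (Nat.mul_ne_zero ha hp.ne_zero), if_neg ha,
            padicValNat.mul ha hp.ne_zero, padicValNat_self]
      · have e2 : ∀ b ∈ range q, (if a * p + (b + 1) = 0 then 0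
            else i (padicValNat p (a * p + (b + 1)))) = i 0 := by
          intro b hb
          have hb' := Finset.mem_range.1 hb
          rw [if_neg (by omega), padicValNat.eq_zero_of_not_dvd]
          intro hd
          have h3 : p ∣ b + 1 := (Nat.dvd_add_right (Dvd.intro_left a rfl)).1 hd
          have := Nat.le_of_dvd (Nat.succ_pos b) h3
          omega
        rw [Finset.sum_congr rfl e2, Finset.sum_const, Finset.card_range, nsmul_eq_mul]
        have e3 : (p : ℤ) = q + 1 := by
          rw [hq]
          push_cast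
          ring
        rw [e3]
        ring
    rw [Finset.sum_congr rfl hb, Finset.sum_add_distrib, Finset.sum_const, Finset.card_range,
      ← conv (p ^ r) (fun n => i (n + 1)) hpos, ih (fun n => i (n + 1)), Finset.sum_range_succ']
    have e4 : ∀ j ∈ range r, (((p ^ (r + 1 - (j + 1)) : ℕ) : ℤ) -
        ((p ^ (r + 1 - (j + 1) - 1) : ℕ) : ℤ)) * i (j + 1) =
        (((p ^ (r - j) : ℕ) : ℤ) - ((p ^ (r - j - 1) : ℕ) : ℤ)) * i (j + 1) := by
      intro j _
      rw [Nat.add_sub_add_right]
    rw [Finset.sum_congr rfl e4]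
    congr 1
    rw [nsmul_eq_mul, Nat.sub_zero, Nat.add_sub_cancel]
    push_cast
    ring

end Pool.CND
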